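import Mathlib
import Pool.Agent.L0h52.BT.Fin

/-!
# Beilinson's conjecture for varieties fibred in genus one curves with constant Jacobian

Let `E` be an elliptic curve over `ℚ` and `X` a smooth projective variety over `ℚ` of dimension
`n = m + 1`, `m ≥ 1`, with a dense open subset `X°` that is a torsor under `E` over a dense open subset
`U` of the affine space `𝔸^m`: a fibration in curves of genus one, in general without a section, whose
Jacobian is the constant curve `E`.  Examples, for all nonzero `f ∈ ℚ[t_1, …, t_m]` and all `D`: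

  `X³ + f(t) Y³ = D f(t)² Z³`,  that is  `(E × Y) / μ₃`, `E : x³ + y³ = D`, `Y : w³ = f(t)`

(bielliptic surfaces, elliptic surfaces of Kodaira dimension one, …; of Kodaira dimension `m` if the
degree of `f` is large).

The cohomology: `H¹(X) = H¹(E)` and, by Poincaré duality, `H^{2n-1}(X) = H¹(E)(-(n - 1))`; for a surface
these are all the odd groups.  If `Y` is the smooth triple cover of `ℙ^m` branched along a smooth
hypersurface of degree `3 e`, then `X = (E × Y) / μ₃` is smooth and projective, the translations of `E` by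
points of finite order act trivially on the rational Chow motive, and `h(X) = h(E) ⊗ h(ℙ^m)`; so
`H^{2j+1}(X) = H¹(E)(-j)` and `V^{j+1} = E(ℚ) ⊗ ℚ` for all `j < n`.  The `L`-function of `H¹(E)(-j)` is
`L(E, s - j)` with the centre `j + 1`.

* For every `E` and every family as above `V^n = E(ℚ) ⊗ ℚ`, `V^n = CH^n(X)^0 ⊗ ℚ` being the group of the
  zero-cycles of degree zero: the Albanese image of a zero-cycle of degree zero over `ℚ` is a rational
  point of `E`, the cycle is torsion if and only if this point is, and the image contains `d² E(ℚ)`, `d`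
  being the degree of a multisection.
* `D` runs over the cube-free numbers, prime to `3`, not `±1` modulo `9`, with exactly one prime factor
  `≡ 2` modulo `3`.  If `D` does not split, and these are exactly the proportion
  `∏_{i ≥ 1} (1 - 3^{-i}) = 0.5601…` of all the `D` of the class, then for `E : x³ + y³ = D` the group
  `E(ℚ)` is finite, `V^n = 0` for all the families in all dimensions, and `L(E, s - j)` is entire and not
  zero at its centre for all `j`.

The zero-cycles are those on `X°` (by the moving lemma they represent all classes), over the algebraic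
closure and invariant under the Galois group.  A cycle is called torsion if a positive multiple is in the
subgroup generated by explicit divisors of rational functions on curves over the algebraic closure (then
it is torsion in the Chow group over `ℚ`, by a transfer argument): the principal divisors of the fibres
and the differences `∑_{w ∈ W_t} [w + P] - ∑_{w ∈ W_t'} [w + P]`, the divisor of `(u - t) / (u - t')`, `u` a
coordinate of the line through `t` and `t'`, on the curve of the points `w + P` over this line, where `W`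
is a multisection.

The facts on the curves `x³ + y³ = D` are from `CubicTwistsCubeFree`.  The argument for the zero-cycles:
let `Q = ℤ[X°] / Rat`.  For `x` in the fibre over `t` the map `ψ_x(P) = [x + P] - [x]` is a homomorphism
`E → Q` that only depends on `t`, `d [x] = ∑_{w ∈ W_t} [w] + ψ_x(alb x)` for `alb x = ∑_{w ∈ W_t} (x - w)`, and
`d ψ_x = ∑_{w ∈ W_t} ψ_w` does not depend on `t`.
-/

set_option autoImplicit false

open scoped Classical

namespace Pool.Agent.Results.MP_29b22a_nt.ConstantJacobianFibrations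

open Pool.Agent.TH841.SH.D (Pt act Gal)
open Pool.Agent.L0h52.BT (TorsorFamily cubic cubicFamily PY XP)

section cycles

variable {k : Type} [Field k] {E : WeierstrassCurve k} {m : ℕ} (F : TorsorFamily E m)

/-- The degree of a zero-cycle. -/
def degree (z : F.X →₀ ℤ) : ℤ := z.sum fun _ c => c

/-- The zero-cycle is defined over `k`: it is invariant under the Galois group. -/
def IsRational (z : F.X →₀ ℤ) : Prop := ∀ σ, z.mapDomain (F.gal σ) = z

/-- The divisors of rational functions on the fibre through a point `x`, by Abel's theorem: the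
`∑ c_P [x + P]` with `∑ c_P = 0` and `∑ c_P P = 0`. -/
def IsFibreDivisor (z : F.X →₀ ℤ) : Prop :=
  ∃ (x : F.X) (c : Pt E (AlgebraicClosure k) →₀ ℤ), c.sum (fun _ b => b) = 0 ∧
    c.sum (fun P b => b • P) = 0 ∧ z = c.mapDomain (fun P => F.tr P x)

/-- The divisors `∑_{w ∈ W_t} [w + P] - ∑_{w ∈ W_t'} [w + P]`. -/
def IsBaseDivisor (z : F.X →₀ ℤ) : Prop :=
  ∃ (P : Pt E (AlgebraicClosure k)) (t t' : Fin m → AlgebraicClosure k),
    MvPolynomial.aeval t F.f ≠ 0 ∧ MvPolynomial.aeval t' F.f ≠ 0 ∧
    z = ∑ w ∈ F.W t, Finsupp.single (F.tr P w) 1 - ∑ w ∈ F.W t', Finsupp.single (F.tr P w) 1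

/-- A positive multiple of the cycle is a sum of such divisors. -/
def IsTorsion (z : F.X →₀ ℤ) : Prop :=
  ∃ N : ℕ, 0 < N ∧ N • z ∈ AddSubgroup.closure {y | IsFibreDivisor F y ∨ IsBaseDivisor F y}

/-- The difference `x - y` of two points of a fibre: the point `P` of `E` with `y + P = x`. -/
noncomputable def difference (x y : F.X) : Pt E (AlgebraicClosure k) :=
  if h : ∃ P, F.tr P y = x then h.choose else 0

/-- The Albanese image of a cycle, the sum of the `c_x ∑_{w ∈ W} (x - w)`, `W` the points of the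
multisection in the fibre of `x`. -/
noncomputable def albanese (z : F.X →₀ ℤ) : Pt E (AlgebraicClosure k) :=
  z.sum fun x c => c • ∑ w ∈ F.W (F.base x), difference F x w

/-- The point over the algebraic closure that a point over `k` defines. -/
noncomputable def point (Q : Pt E k) : Pt E (AlgebraicClosure k) :=
  act E (Algebra.ofId k (AlgebraicClosure k)) Q

/-- `V^n = E(k) ⊗ ℚ` for the family `F`, with the Albanese map, whose image contains `d² E(k)`. -/
def AlbaneseStatement : Prop :=
  (∀ z : F.X →₀ ℤ, IsRational F z → degree F z = 0 →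
    ∃ Q : Pt E k, point Q = albanese F z ∧ (IsTorsion F z ↔ ∃ N : ℕ, 0 < N ∧ N • Q = 0)) ∧
  ∀ Q : Pt E k, ∃ z : F.X →₀ ℤ, IsRational F z ∧ degree F z = 0 ∧ albanese F z = (F.n ^ 2) • point Q

end cycles

/-- `f` is an entire function which is, for `Re s > j + 3 / 2`, the Euler product over the primes
`p ∤ 2 (4 A³ + 27 B²)` of `L(E, s - j)`, `E : y² = x³ + A x + B`, that is of the `L`-function of
`H¹(E)(-j)`; its centre is `j + 1` -/
def IsL (A B : ℤ) (j : ℕ) (f : ℂ → ℂ) : Prop :=
  Differentiable ℂ f ∧ ∀ s : ℂ, (j : ℝ) + (3 : ℝ) / 2 < s.re →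
    HasProd
      (fun p : {p : ℕ // p.Prime ∧ ¬ ((p : ℤ) ∣ 2 * (4 * A ^ 3 + 27 * B ^ 2))} =>
        ((1 : ℂ)
          - ((((p.1 : ℤ) - (Nat.card {q : ZMod p.1 × ZMod p.1 //
                q.2 ^ 2 = q.1 ^ 3 + (A : ZMod p.1) * q.1 + (B : ZMod p.1)} : ℤ)) : ℤ) : ℂ)
              * ((p.1 : ℂ) ^ ((j : ℂ) - s))
          + (p.1 : ℂ) ^ (1 + 2 * (j : ℂ) - 2 * s))⁻¹)
      (f s)

/-- Both sides are zero for all the families of torsors under `E : x³ + y³ = D`, that is
`y² = x³ - 432 D²`: the `L`-function of `H¹(E)(-j)` is entire and not zero at its centre for all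
`j ≥ 0`, `E(ℚ)` is finite, and for all the families, of all dimensions, all the zero-cycles of degree
zero over `ℚ` are torsion. -/
def BothZero (D : ℕ) : Prop :=
  (∀ j : ℕ, (∃ f : ℂ → ℂ, IsL 0 (-432 * (D : ℤ) ^ 2) j f) ∧
    ∀ f : ℂ → ℂ, IsL 0 (-432 * (D : ℤ) ^ 2) j f → f (j + 1) ≠ 0) ∧
  Finite (Pt (cubic (D : ℚ)) ℚ) ∧
  ∀ (m : ℕ) (F : TorsorFamily (cubic (D : ℚ)) m) (z : F.X →₀ ℤ), IsRational F z →
    degree F z = 0 → IsTorsion F z

/-- the class: `D` cube-free, prime to `3`, not `±1` modulo `9`, exactly one prime factor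
congruent to `2` modulo `3` -/
def Class (D : ℕ) : Prop :=
  D ≠ 0 ∧ (∀ p : ℕ, p.Prime → ¬ p ^ 3 ∣ D) ∧ ¬ 3 ∣ D ∧ D % 9 ≠ 1 ∧ D % 9 ≠ 8 ∧
    ∃ q : ℕ, q.Prime ∧ q % 3 = 2 ∧ q ∣ D ∧ ∀ p : ℕ, p.Prime → p ∣ D → p ≠ q → p % 3 = 1

/-- `D` is not a product `d₀ d₁ d₂` of coprime factors, at least two of them different from `1`,
such that `d₁ d₂²`, `d₂ d₀²`, `d₀ d₁²` are cubes modulo the primes dividing `d₀`, `d₁`, `d₂` -/
def NoSplit (D : ℕ) : Prop :=
  ∀ d : ZMod 3 → ℕ, ∏ c, d c = D → (∀ c c', c ≠ c' → Nat.Coprime (d c) (d c')) →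
    (∀ (c : ZMod 3) (p : ℕ), p.Prime → p ∣ d c →
      ∃ x : ℤ, (p : ℤ) ∣ (d (c + 1) : ℤ) * (d (c + 2) : ℤ) ^ 2 - x ^ 3) →
    ∃ c, ∀ c', c' ≠ c → d c' = 1

theorem torsion_iff {k : Type} [Field k] {E : WeierstrassCurve k} {m : ℕ} (F : TorsorFamily E m)
    (z : F.X →₀ ℤ) : IsTorsion F z ↔
      ∃ N : ℕ, 0 < N ∧ N • z ∈ Pool.Agent.L0h52.BT.Rat F.tr F.U F.W := by
  unfold IsTorsion
  have e : {y | IsFibreDivisor F y ∨ IsBaseDivisor F y} =
      Pool.Agent.L0h52.BT.fibreRel F.tr ∪ Pool.Agent.L0h52.BT.baseRel F.tr F.U F.W := by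
    ext y
    rfl
  rw [e]
  rfl

theorem albaneseStatement {k : Type} [Field k] [CharZero k] {E : WeierstrassCurve k} {m : ℕ}
    (F : TorsorFamily E m) : AlbaneseStatement F := by
  constructor
  · intro z hz hd
    obtain ⟨Q, hQ⟩ := F.alb_rational hz
    refine ⟨Q, hQ, ?_⟩
    rw [torsion_iff, F.dat.torsion_iff hd, ← hQ]
    refine exists_congr fun N => and_congr_right fun _ => ?_
    rw [← map_nsmul]
    constructor
    · intro h
      have h1 : act E (Algebra.ofId k (AlgebraicClosure k)) (N • Q) =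
          act E (Algebra.ofId k (AlgebraicClosure k)) 0 := by rw [h, map_zero]
      exact WeierstrassCurve.Affine.Point.map_injective _ h1
    · intro h
      rw [h, map_zero]
  · intro Q
    exact F.surj Q

theorem isTorsion_of_finite {k : Type} [Field k] [CharZero k] {E : WeierstrassCurve k} {m : ℕ}
    (F : TorsorFamily E m) (hE : Finite (Pt E k)) {z : F.X →₀ ℤ} (hz : IsRational F z)
    (hd : degree F z = 0) : IsTorsion F z :=
  (torsion_iff F z).2 (F.torsion hE hz hd)

theorem class_iff (D : ℕ) : Class D ↔ Pool.Agent.Y703.CT.Cls D := by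
  unfold Class Pool.Agent.Y703.CT.Cls Pool.Agent.Y703.CT.Base
  constructor
  · rintro ⟨h1, h2, h3, h4, h5, h6⟩
    exact ⟨⟨h1, h3, h2⟩, h4, h5, h6⟩
  · rintro ⟨⟨h1, h3, h2⟩, h4, h5, h6⟩
    exact ⟨h1, h2, h3, h4, h5, h6⟩

theorem isL_shift {A B : ℤ} {j : ℕ} {f : ℂ → ℂ} :
    IsL A B j f ↔ IsL A B 0 fun s => f (s + j) := by
  unfold IsL
  constructor
  · rintro ⟨h1, h2⟩
    refine ⟨h1.comp (differentiable_id.add_const _), fun s hs => ?_⟩
    have h3 := h2 (s + j) (by
      rw [Complex.add_re, Complex.natCast_re]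
      push_cast at hs
      linarith)
    convert h3 using 1
    funext p
    have e1 : (((0 : ℕ) : ℂ) - s) = (j : ℂ) - (s + j) := by push_cast; ring
    have e2 : (1 + 2 * ((0 : ℕ) : ℂ) - 2 * s) = 1 + 2 * (j : ℂ) - 2 * (s + j) := by
      push_cast; ring
    rw [e1, e2]
  · rintro ⟨h1, h2⟩
    refine ⟨?_, fun s hs => ?_⟩
    · have h3 : Differentiable ℂ fun s : ℂ => (fun s => f (s + j)) (s - j) :=
        h1.comp (differentiable_id.sub_const _)
      have e : (fun s : ℂ => (fun s => f (s + j)) (s - j)) = f := by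
        funext s
        show f (s - j + j) = f s
        rw [sub_add_cancel]
      rwa [e] at h3
    · have h3 := h2 (s - j) (by
        rw [Complex.sub_re, Complex.natCast_re]
        push_cast
        linarith)
      have e0 : f (s - j + j) = f s := by rw [sub_add_cancel]
      show HasProd _ (f s)
      rw [← e0]
      convert h3 using 1
      funext p
      have e1 : (((0 : ℕ) : ℂ) - (s - j)) = (j : ℂ) - s := by push_cast; ring
      have e2 : (1 + 2 * ((0 : ℕ) : ℂ) - 2 * (s - j)) = 1 + 2 * (j : ℂ) - 2 * s := by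
        push_cast; ring
      rw [e1, e2]

theorem bothZero {D : ℕ} (hC : Class D) (hN : NoSplit D) : BothZero D := by
  have hC' := (class_iff D).1 hC
  obtain ⟨⟨G, h1, h2, h3⟩, h4⟩ := Pool.Agent.R419.CF.weak hC' hN
  have hG : IsL 0 (-432 * (D : ℤ) ^ 2) 0 G := by
    refine ⟨h1, fun s hs => ?_⟩
    have h5 := h2 s (by push_cast at hs; linarith)
    convert h5 using 1
    funext p
    have e1 : (((0 : ℕ) : ℂ) - s) = -s := by push_cast; ring
    have e2 : (1 + 2 * ((0 : ℕ) : ℂ) - 2 * s) = 1 - 2 * s := by push_cast; ring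
    rw [e1, e2]
  have huniq : ∀ f : ℂ → ℂ, IsL 0 (-432 * (D : ℤ) ^ 2) 0 f → f = G := by
    intro f hf
    refine Pool.Agent.Y687.unique_f hf.1 h1 (fun s hs => ?_) h2
    have h5 := hf.2 s (by push_cast; linarith)
    convert h5 using 1
    funext p
    have e1 : (((0 : ℕ) : ℂ) - s) = -s := by push_cast; ring
    have e2 : (1 + 2 * ((0 : ℕ) : ℂ) - 2 * s) = 1 - 2 * s := by push_cast; ring
    rw [e1, e2]
  have hfin : Finite (Pt (cubic (D : ℚ)) ℚ) := by
    apply Pool.Agent.L0h52.BT.finite_pt
    push_cast at h4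
    exact h4
  refine ⟨fun j => ⟨⟨fun s => G (s - j), ?_⟩, fun f hf => ?_⟩, hfin,
    fun m F z hz hd => isTorsion_of_finite F hfin hz hd⟩
  · rw [isL_shift]
    have e : (fun s : ℂ => (fun s : ℂ => G (s - j)) (s + j)) = G := by
      funext s
      show G (s + j - j) = G s
      rw [add_sub_cancel_right]
    rw [e]
    exact hG
  · have h5 := huniq _ (isL_shift.1 hf)
    have h6 : f (1 + j) = G 1 := congrFun h5 1
    rw [add_comm, h6]
    exact h3

/-- **Main theorem.**  (1) The Albanese statement for all fields `k` of characteristic zero, all `E` and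
all families.  (2) The examples `(E × Y) / μ₃`: their points are the classes of the points `(P, t, w)`
of `E × Y`, `w³ = f(t) ≠ 0`, for the relation `(P, t, w) ~ (P + T ζ, t, ζ w)`, `ζ³ = 1`.  (3) The size of
the class.  (4) `BothZero D` for all the `D` of the class which do not split, and (5), (6) their
proportion in the class. -/
theorem result :
    (∀ (k : Type) [Field k] [CharZero k] (E : WeierstrassCurve k) (m : ℕ) (F : TorsorFamily E m),
      AlbaneseStatement F) ∧
    (∀ (D : ℚ) (hD : D ≠ 0) (m : ℕ) (f : MvPolynomial (Fin m) ℚ) (hf : f ≠ 0),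
      (cubicFamily D hD f hf).f = f ∧
      (∀ x : (cubicFamily D hD f hf).X, ∃ a : PY D f, x = XP.mk hD a) ∧
      ∀ a b : PY D f, XP.mk hD a = XP.mk hD b ↔ PY.rel hD a b) ∧
    (∃ c : ℝ, 0 < c ∧ ∃ X₀ : ℕ, ∀ X : ℕ, X₀ ≤ X →
      c * X / Real.sqrt (Real.log X) ≤ (((Finset.Icc 1 X).filter fun D => Class D).card : ℝ)) ∧
    (∀ D : ℕ, Class D → NoSplit D → BothZero D) ∧
    (0.56 : ℝ) < ∏' i : ℕ, (1 - (1 / 3 : ℝ) ^ (i + 1)) ∧
    Filter.Tendsto (fun X : ℕ =>
        (((Finset.Icc 1 X).filter fun D => Class D ∧ NoSplit D).card : ℝ) /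
        (((Finset.Icc 1 X).filter fun D => Class D).card : ℝ)) Filter.atTop
      (nhds (∏' i : ℕ, (1 - (1 / 3 : ℝ) ^ (i + 1)))) := by
  have e2 : ∀ X : ℕ, (Finset.Icc 1 X).filter (fun D => Class D) =
      (Finset.Icc 1 X).filter fun D => Pool.Agent.Y703.CT.Cls D := by
    intro X
    refine Finset.filter_congr fun D _ => ?_
    rw [class_iff]
  refine ⟨fun k _ _ E m F => albaneseStatement F, fun D hD m f hf =>
    ⟨rfl, fun x => XP.ind (p := fun x => ∃ a : PY D f, x = XP.mk hD a) (fun a => ⟨a, rfl⟩) x,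
      fun a b => XP.mk_eq_iff a b⟩, ?_,
    fun D hC hN => bothZero hC hN, Pool.Agent.Y461.CX.t_C3.2.2.2, ?_⟩
  · simp only [e2]
    exact Pool.Agent.R419.CF.low
  · have h := Pool.Agent.R419.CF.t_FIN
    unfold Pool.Agent.Y703.CX.c3 at h
    have e1 : ∀ X : ℕ, (Finset.Icc 1 X).filter (fun D => Class D ∧ NoSplit D) =
        (Finset.Icc 1 X).filter fun D => Pool.Agent.Y703.CT.Cls D ∧
          Pool.Agent.Y703.CT.NoSplit D := by
      intro X
      refine Finset.filter_congr fun D _ => ?_
      rw [← class_iff]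
      rfl
    simp only [e1, e2]
    exact h

end Pool.Agent.Results.MP_29b22a_nt.ConstantJacobianFibrations
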