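import Pool.Agent.N41.RM.Bad

/-!
# The central value of `L(H^i(X), s)` from the numbers of points of `X` modulo the primes: a numerical
form of the parts (iii) and (iv) of Beilinson's conjecture

Let `X` be a smooth projective variety over a number field `K` (for example `K = ℚ`), `i` odd and
`m = (i + 1) / 2`. For a prime `v` of good reduction and `k ≥ 1` let `t_{v,k}` be the trace of the `k`-th
power of Frobenius on `H^i(X)`; by Deligne's theorem these traces are determined by the numbers of the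
points of `X` over the finite extensions of the residue field. For real `γ` and `T > 1` put

`W_γ(T) = - ∑_{v, k} t_{v,k} / (k q_v^{m k}) · e^{i γ u} / Γ(1 + u)`,  `u = k log q_v / log T`,

an absolutely convergent series, the logarithm of the Euler product at the central point `s = m` with
weights. The only hypothesis is (H1): `L(H^i(X), s)` has a meromorphic continuation `F` to a
neighbourhood of the real segment `[m, m + 1/2]`. Then for every `γ > π/2`

`W_γ(T) = r (log log T - Λ_γ) - log |L_S*(m)| + π i e + O(1 / log T)`,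
`Λ_γ = ∫_0^∞ (e^{-t} - e^{iγt} / Γ(1 + t)) dt / t`,

where `r` is the order of `F` at `s = m`, `L_S*(m)` is the leading coefficient (without the Euler factors
at the bad primes) and `e` is the number of the real zeros `> m` minus the number of the real poles
`> m`. No hypothesis on the zeros or poles is necessary. Consequently, for any integer `ρ` and real
number `B ≠ 0`:

* `ord_{s=m} F = ρ` if and only if `Re W_γ(T_n) / log log T_n → ρ` for one `γ > π/2` and one sequence
  `T_n → ∞`; with `ρ = dim V^m` this is part (iii) of the conjecture;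
* `F(s) ~ B (s - m)^ρ` if and only if `exp W_γ(T_n) / (log T_n)^ρ → e^{- ρ Λ_γ} / (B b)`, `b` the product
  of the inverse Euler factors at the bad primes, for one `γ` and one sequence; with `ρ = dim V^m` and
  `B` a nonzero rational multiple of `det Π · det ⟨ , ⟩` this is (iii) together with (iv).

With sharp cut-off such asymptotic formulas imply the Riemann hypothesis for `L(H^i(X), s)` (Goldfeld,
Kuo and Murty, Conrad), so they are not equivalent to the conjecture. The result contains the case of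
abelian varieties (`i = 1`, conjecture of Birch and Swinnerton-Dyer).

The proof (parts of the starting library, helpers 41, 187, 189, 351 and others): the Hankel integral
for `1/Γ(1 + u)`, rotated by `γ > π/2`, keeps the contour on one side of the real axis.
-/

set_option autoImplicit false

namespace Pool.Agent.Results.MP_29b22a_nt.NumericalCriterion

open NumberField IsDedekindDomain Filter Topology Asymptotics Classical

section defs

variable {K : Type} [Field K] [NumberField K] {n : ℕ}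

/-- `X` is a projective scheme over the ring of integers of `K`, given by homogeneous polynomials. For a
homomorphism from the ring of integers to a field `κ` with `q` elements this is the number of the
nonzero solutions of the equations in `κ ^ n`, that is `q - 1` times the number of the points of `X` with
coordinates in `κ`. -/
noncomputable def cone (X : Set (MvPolynomial (Fin n) (𝓞 K))) {κ : Type} [Field κ]
    (φ : 𝓞 K →+* κ) : ℕ :=
  Nat.card {u : Fin n → κ // u ≠ 0 ∧ ∀ f ∈ X, MvPolynomial.eval₂ φ u f = 0}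

/-- The norm of the prime `v`. -/
noncomputable def q (v : HeightOneSpectrum (𝓞 K)) : ℕ := Ideal.absNorm v.asIdeal

/-- `α_1, …, α_N` are the eigenvalues of the geometric Frobenius at the prime `v` on `H^i(X)`, where `X`
has dimension `d`: there are finite multisets `β_k` of complex numbers of absolute value `q_v^{k/2}`,
`k = 0, …, 2d`, with `β_i = {α_1, …, α_N}`, such that for every finite extension `κ` of the residue field
of `v`, of degree `e`, the number of the points of `X` with coordinates in `κ` is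
`∑_k (-1)^k ∑_{z ∈ β_k} z^e`. (By Deligne's theorem they exist at all primes of good reduction, and they
are determined by the numbers of points.) -/
def IsFrobenius (X : Set (MvPolynomial (Fin n) (𝓞 K))) (d i : ℕ)
    (v : HeightOneSpectrum (𝓞 K)) {N : ℕ} (α : Fin N → ℂ) : Prop :=
  ∃ β : ℕ → Multiset ℂ, β i = Finset.univ.val.map α ∧
    (∀ k, ∀ z ∈ β k, ‖z‖ = (q v : ℝ) ^ ((k : ℝ) / 2)) ∧
    ∀ (κ : Type) [Field κ] [Finite κ] (φ : 𝓞 K →+* κ) (e : ℕ), RingHom.ker φ = v.asIdeal →
      Nat.card κ = q v ^ e →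
      (cone X φ : ℂ) = ((q v : ℂ) ^ e - 1) *
          ∑ k ∈ Finset.range (2 * d + 1), (-1 : ℂ) ^ k * ((β k).map (fun z => z ^ e)).sum

/-- The `α_{v,j}` are the parameters of the Euler factors of `L(H^i(X), s)`: outside the finite set `S` of
primes they are the eigenvalues of Frobenius on `H^i(X)`. For the primes in `S` they are the zeros of
any real polynomial, of absolute value at most `q_v^{i/2}` (the eigenvalues of Frobenius on the
invariants of the inertia group, completed by zeros; all of them may be zero, this is the L-function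
without the Euler factors in `S`). -/
def IsParameter (X : Set (MvPolynomial (Fin n) (𝓞 K))) (d i : ℕ) {N : ℕ}
    (S : Finset (HeightOneSpectrum (𝓞 K))) (α : HeightOneSpectrum (𝓞 K) → Fin N → ℂ) : Prop :=
  (∀ v ∉ S, IsFrobenius X d i v (α v)) ∧ ∀ v ∈ S, (∀ j, ‖α v j‖ ≤ (q v : ℝ) ^ ((i : ℝ) / 2)) ∧
    ∃ P : Polynomial ℝ, P.map (algebraMap ℝ ℂ) = ∏ j, (Polynomial.X - Polynomial.C (α v j))

/-- `L(s) = ∏_v ∏_j (1 - α_{v,j} q_v^{-s})⁻¹`. -/
noncomputable def LFun {N : ℕ} (α : HeightOneSpectrum (𝓞 K) → Fin N → ℂ) (s : ℂ) : ℂ :=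
  ∏' v : HeightOneSpectrum (𝓞 K), ∏ j, (1 - α v j * (q v : ℂ) ^ (-s))⁻¹

/-- `F` is the L-function for `Re s > m + 1/2` and meromorphic at the points of the real segment
`[m, m + 1/2]`. -/
def IsContinuation (m : ℕ) {N : ℕ} (α : HeightOneSpectrum (𝓞 K) → Fin N → ℂ) (F : ℂ → ℂ) : Prop :=
  (∀ x : ℝ, (m : ℝ) ≤ x → x ≤ (m : ℝ) + 1 / 2 → MeromorphicAt F (x : ℂ)) ∧
    ∀ s : ℂ, (m : ℝ) + 1 / 2 < s.re → F s = LFun α s

/-- `k log q_v`, where `v = x.1` and `k = x.2 + 1`. -/
noncomputable def freq (x : HeightOneSpectrum (𝓞 K) × ℕ) : ℝ := (x.2 + 1) * Real.log (q x.1)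

/-- The term of `W_γ(T)` at the prime `v = x.1` and the exponent `k = x.2 + 1`:
`- (∑_j α_{v,j}^k) / (k q_v^{m k}) · e^{i γ u} / Γ(1 + u)`, `u = k log q_v / log T`. -/
noncomputable def rotTerm (m : ℕ) {N : ℕ} (S : Finset (HeightOneSpectrum (𝓞 K)))
    (α : HeightOneSpectrum (𝓞 K) → Fin N → ℂ) (γ T : ℝ) (x : HeightOneSpectrum (𝓞 K) × ℕ) : ℂ :=
  if x.1 ∈ S then 0 else
    -(((∑ j, α x.1 j ^ (x.2 + 1)) / ((x.2 + 1) * ((q x.1 : ℂ) ^ m) ^ (x.2 + 1))) *
      (Complex.exp ((γ * (freq x / Real.log T) : ℝ) * Complex.I) /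
        (Real.Gamma (1 + freq x / Real.log T) : ℂ)))

/-- `W_γ(T)`. -/
noncomputable def rotSum (m : ℕ) {N : ℕ} (S : Finset (HeightOneSpectrum (𝓞 K)))
    (α : HeightOneSpectrum (𝓞 K) → Fin N → ℂ) (γ T : ℝ) : ℂ :=
  ∑' x : HeightOneSpectrum (𝓞 K) × ℕ, rotTerm m S α γ T x

/-- `b`: the product of the inverse Euler factors at `s = m` over the primes in `S`. -/
noncomputable def badFactor (m : ℕ) {N : ℕ} (S : Finset (HeightOneSpectrum (𝓞 K)))
    (α : HeightOneSpectrum (𝓞 K) → Fin N → ℂ) : ℂ :=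
  ∏ v ∈ S, ∏ j, (1 - α v j / (q v : ℂ) ^ m)

/-- `Λ_γ = ∫_0^∞ (e^{-t} - e^{iγt} / Γ(1 + t)) dt / t` -/
noncomputable def Lam (γ : ℝ) : ℂ := ∫ t in Set.Ioi (0 : ℝ),
  (Complex.exp (-(t : ℂ)) - Complex.exp ((γ * t : ℝ) * Complex.I) * ((Real.Gamma (1 + t))⁻¹ : ℝ)) / t

/-- The number of the real zeros `> m` of `F` minus the number of the real poles `> m`, counted with
multiplicity. -/
noncomputable def excess (F : ℂ → ℂ) (m : ℝ) : ℤ :=
  ∑ᶠ σ ∈ Set.Ioi m, (meromorphicOrderAt F (σ : ℂ)).untop₀

end defs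

section bridge

variable {K : Type} [Field K] [NumberField K] {n d i m N : ℕ} {X : Set (MvPolynomial (Fin n) (𝓞 K))}
  {S : Finset (HeightOneSpectrum (𝓞 K))} {α : HeightOneSpectrum (𝓞 K) → Fin N → ℂ} {F : ℂ → ℂ}

theorem two_le (v : HeightOneSpectrum (𝓞 K)) : (2 : ℝ) ≤ Ideal.absNorm v.asIdeal :=
  Pool.Agent.R409.RA.two_le v

theorem norm_le (hα : IsParameter X d i S α) (v : HeightOneSpectrum (𝓞 K)) (j : Fin N) :
    ‖α v j‖ ≤ (Ideal.absNorm v.asIdeal : ℝ) ^ ((i : ℝ) / 2) := by
  by_cases hv : v ∈ S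
  · exact (hα.2 v hv).1 j
  · exact (Pool.Agent.N41.RM.frob_norm (X := X) (d := d) (hα.1 v hv) j).le

theorem psum_real (hid : i ≤ 2 * d) (hα : IsParameter X d i S α) (v : HeightOneSpectrum (𝓞 K))
    (k : ℕ) : (∑ j, α v j ^ (k + 1)).im = 0 := by
  refine Pool.Agent.N41.RM.psum_real_of_stable ?_ (k + 1)
  by_cases hv : v ∈ S
  · exact Pool.Agent.N41.RM.conj_stable (hα.2 v hv).2
  · exact Pool.Agent.N41.RM.frob_conj (X := X) (d := d) hid (hα.1 v hv)

theorem ext_norm (h : ∀ v j, ‖α v j‖ ≤ (Ideal.absNorm v.asIdeal : ℝ) ^ ((i : ℝ) / 2))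
    (v : HeightOneSpectrum (𝓞 K)) (j : Fin N) :
    ‖Pool.Agent.N41.RM.ext S α v j‖ ≤ (Ideal.absNorm v.asIdeal : ℝ) ^ ((i : ℝ) / 2) := by
  unfold Pool.Agent.N41.RM.ext
  split_ifs
  · rw [norm_zero]
    positivity
  · exact h v j

theorem ext_real (h : ∀ v k, (∑ j, α v j ^ (k + 1)).im = 0) (v : HeightOneSpectrum (𝓞 K))
    (k : ℕ) : (∑ j, Pool.Agent.N41.RM.ext S α v j ^ (k + 1)).im = 0 := by
  unfold Pool.Agent.N41.RM.ext
  split_ifs
  · simp
  · exact h v k

theorem term_eq (m : ℕ) (γ T : ℝ) (x : HeightOneSpectrum (𝓞 K) × ℕ) :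
    rotTerm m S α γ T x = Pool.Agent.N41.RM.rterm (Pool.Agent.N41.RM.qv (K := K))
      (Pool.Agent.N41.RM.av m (Pool.Agent.N41.RM.ext S α)) γ (Real.log T) x := by
  unfold rotTerm Pool.Agent.N41.RM.rterm Pool.Agent.N41.RM.av Pool.Agent.N41.RM.ext
  by_cases h : x.1 ∈ S
  · simp [h]
  · simp only [if_neg h, neg_inj]
    have h1 : ∑ j, (α x.1 j / (Ideal.absNorm x.1.asIdeal : ℂ) ^ m) ^ (x.2 + 1) =
        (∑ j, α x.1 j ^ (x.2 + 1)) / ((Ideal.absNorm x.1.asIdeal : ℂ) ^ m) ^ (x.2 + 1) := by
      rw [Finset.sum_div]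
      exact Finset.sum_congr rfl fun j _ => by rw [div_pow]
    rw [h1]
    have h2 : freq x = Pool.Agent.N41.RM.fq (Pool.Agent.N41.RM.qv (K := K)) x := rfl
    rw [h2]
    push_cast
    unfold q
    rw [div_div, mul_comm ((x.2 : ℂ) + 1), div_eq_mul_inv (Complex.exp _), mul_assoc, mul_assoc]

theorem sum_eq (m : ℕ) (γ T : ℝ) : rotSum m S α γ T =
    Pool.Agent.N41.RM.rmn (Pool.Agent.N41.RM.qv (K := K))
      (Pool.Agent.N41.RM.av m (Pool.Agent.N41.RM.ext S α)) γ (Real.log T) := by
  unfold rotSum Pool.Agent.N41.RM.rmn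
  exact tsum_congr fun x => term_eq m γ T x

theorem bad_eq (m : ℕ) : Pool.Agent.N41.RM.bad S α (m : ℂ) = badFactor m S α := by
  unfold Pool.Agent.N41.RM.bad badFactor q
  refine Finset.prod_congr rfl fun v _ => Finset.prod_congr rfl fun j _ => ?_
  rw [Complex.cpow_neg, Complex.cpow_natCast, div_eq_mul_inv]

theorem centre (hi : i + 1 = 2 * m) : (i : ℝ) / 2 < m := by
  have h : ((i : ℝ)) + 1 = 2 * m := by exact_mod_cast hi
  linarith

/-- `F` is meromorphic at the real points `> m + 1/2` -/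
theorem mero_right (hi : i + 1 = 2 * m) (hid : i ≤ 2 * d) (hα : IsParameter X d i S α)
    (hF : IsContinuation m α F) {σ : ℝ} (hσ : (m : ℝ) + 1 / 2 < σ) : MeromorphicAt F (σ : ℂ) := by
  have h3 : ((i : ℝ)) + 1 = 2 * m := by exact_mod_cast hi
  have hn := norm_le hα
  have hre := psum_real hid hα
  have E := Pool.Agent.N41.RM.en_nf hi hn hre
  have h5 := (E.phi_analytic (Φ := fun w => F (m + w)) (fun w hw => by
    have h1 := Pool.Agent.N41.RM.hasProd_nf (s := m + w) hi hn hre (by
      rw [Complex.add_re, Complex.natCast_re]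
      linarith)
    have h2 := hF.2 (m + w) (by
      rw [Complex.add_re, Complex.natCast_re]
      linarith)
    have h2' : F (m + w) = ∏' v : HeightOneSpectrum (𝓞 K), ∏ j, (1 - α v j *
      (Ideal.absNorm v.asIdeal : ℂ) ^ (-(m + w)))⁻¹ := h2
    rw [← h2'] at h1
    have h4 : (fun v : HeightOneSpectrum (𝓞 K) => ∏ j, (1 - Pool.Agent.N41.RM.av m α v j *
        (Pool.Agent.N41.RM.qv v : ℂ) ^ (-w))⁻¹) =
      fun v : HeightOneSpectrum (𝓞 K) => ∏ j, (1 - α v j *
        (Ideal.absNorm v.asIdeal : ℂ) ^ (-(m + w)))⁻¹ := by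
      funext v
      refine Finset.prod_congr rfl fun j _ => ?_
      have hq : (2 : ℝ) ≤ Ideal.absNorm v.asIdeal := two_le v
      have hq0 : (Ideal.absNorm v.asIdeal : ℂ) ≠ 0 := by
        have : (Ideal.absNorm v.asIdeal : ℝ) ≠ 0 := by linarith
        exact_mod_cast this
      unfold Pool.Agent.N41.RM.av Pool.Agent.N41.RM.qv
      rw [Complex.ofReal_natCast, neg_add, Complex.cpow_add _ _ hq0, Complex.cpow_neg _ (m : ℂ),
        Complex.cpow_natCast]
      congr 2
      field_simp
    rw [h4]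
    exact h1) (w := σ - m) (by
      rw [Complex.sub_re, Complex.ofReal_re, Complex.natCast_re]
      linarith)).1
  have h6 : AnalyticAt ℂ (fun z : ℂ => z - m) (σ : ℂ) := by fun_prop
  have h7 := AnalyticAt.fun_comp_of_eq h5 h6 rfl
  have h8 : (fun z : ℂ => F (m + (z - m))) = F := by
    funext z
    rw [add_sub_cancel]
  rw [h8] at h7
  exact h7.meromorphicAt

/-- the law for the L-function without the Euler factors in `S` -/
theorem law (hi : i + 1 = 2 * m) (hid : i ≤ 2 * d) (hα : IsParameter X d i S α)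
    (hF : IsContinuation m α F) :
    ∃ (r : ℤ) (l b : ℝ), meromorphicOrderAt F m = r ∧ meromorphicTrailingCoeffAt F m = l ∧ l ≠ 0 ∧
      badFactor m S α = b ∧ b ≠ 0 ∧ ∀ γ : ℝ, Real.pi / 2 < γ →
      (fun T : ℝ => Pool.Agent.N41.RM.rmn (Pool.Agent.N41.RM.qv (K := K))
          (Pool.Agent.N41.RM.av m (Pool.Agent.N41.RM.ext S α)) γ T -
        (r * (Real.log T - Pool.Agent.W187.UR.Lam γ) - Real.log |l * b| +
        Real.pi * excess F m * Complex.I)) =O[atTop] (fun T : ℝ => 1 / T) ∧
      Tendsto (fun T : ℝ => Complex.exp (Pool.Agent.N41.RM.rmn (Pool.Agent.N41.RM.qv (K := K))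
          (Pool.Agent.N41.RM.av m (Pool.Agent.N41.RM.ext S α)) γ T) / (T : ℂ) ^ r) atTop
        (𝓝 (Complex.exp (-(r * Pool.Agent.W187.UR.Lam γ)) / ((l * b : ℝ) : ℂ))) := by
  have hc := centre hi
  have h3 : ((i : ℝ)) + 1 = 2 * m := by exact_mod_cast hi
  have hn := norm_le hα
  have hre := psum_real hid hα
  set F' : ℂ → ℂ := fun s => F s * Pool.Agent.N41.RM.bad S α s with hF'
  have hmer : ∀ x : ℝ, (m : ℝ) ≤ x → x ≤ (m : ℝ) + 1 / 2 → MeromorphicAt F' (x : ℂ) :=
    fun x h1 h2 => (hF.1 x h1 h2).mul (Pool.Agent.N41.RM.bad_analytic _).meromorphicAt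
  have heq : ∀ s : ℂ, (m : ℝ) + 1 / 2 < s.re → F' s =
      ∏' v : HeightOneSpectrum (𝓞 K), ∏ j, (1 - Pool.Agent.N41.RM.ext S α v j *
        (Ideal.absNorm v.asIdeal : ℂ) ^ (-s))⁻¹ := by
    intro s hs
    rw [← Pool.Agent.N41.RM.prod_bad hi hn hre (by linarith)]
    show F s * _ = _
    rw [hF.2 s hs]
    rfl
  have hm1 : MeromorphicAt F (m : ℂ) := by
    have := hF.1 m le_rfl (by linarith)
    exact_mod_cast this
  have hmre : (i : ℝ) / 2 < (m : ℂ).re := by rw [Complex.natCast_re]; exact hc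
  have hb0 : Pool.Agent.N41.RM.bad S α (m : ℂ) ≠ 0 := Pool.Agent.N41.RM.bad_ne hn hmre
  have hord : ∀ s : ℂ, (i : ℝ) / 2 < s.re → MeromorphicAt F s →
      meromorphicOrderAt F' s = meromorphicOrderAt F s := fun s h1 h2 =>
    Pool.Agent.N41.RM.order_bad hn h1 h2
  have hex : Pool.Agent.N41.RM.excess F' m = excess F m := by
    unfold Pool.Agent.N41.RM.excess excess
    refine finsum_mem_congr rfl fun σ hσ => ?_
    have hσ' : (m : ℝ) < σ := hσ
    rw [hord σ (by rw [Complex.ofReal_re]; linarith)]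
    by_cases h : σ ≤ m + 1 / 2
    · exact hF.1 σ hσ'.le h
    · push Not at h
      exact mero_right hi hid hα hF h
  -- the leading coefficient
  have hlF : meromorphicTrailingCoeffAt F' (m : ℂ) =
      meromorphicTrailingCoeffAt F (m : ℂ) * badFactor m S α := by
    have h1 : F' = F * Pool.Agent.N41.RM.bad S α := rfl
    rw [h1, MeromorphicAt.meromorphicTrailingCoeffAt_mul hm1
      (Pool.Agent.N41.RM.bad_analytic _).meromorphicAt,
      (Pool.Agent.N41.RM.bad_analytic _).meromorphicTrailingCoeffAt_of_ne_zero hb0, bad_eq]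
  have hb1 : badFactor m S α ≠ 0 := by rw [← bad_eq]; exact hb0
  -- everything is real
  have h0 := Pool.Agent.N41.RM.nf_law hi hn hre (F := F) (fun x h1 h2 => hF.1 x h1 h2)
    (fun s hs => hF.2 s hs) (γ := Real.pi) (by linarith [Real.pi_pos])
  obtain ⟨r, l, e1, e2, e3, -, -⟩ := h0
  have h1 := Pool.Agent.N41.RM.nf_law hi (ext_norm (S := S) hn) (ext_real (S := S) hre) (F := F')
    hmer heq (γ := Real.pi) (by linarith [Real.pi_pos])
  obtain ⟨r', l', f1, f2, f3, -, -⟩ := h1
  have hbr : badFactor m S α = ((l' / l : ℝ) : ℂ) := by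
    have hlc : (l : ℂ) ≠ 0 := by exact_mod_cast e3
    rw [hlF, e2] at f2
    push_cast
    rw [eq_div_iff hlc, mul_comm]
    exact f2
  have hb2 : l' / l ≠ 0 := div_ne_zero f3 e3
  refine ⟨r, l, l' / l, e1, e2, e3, hbr, hb2, fun γ hγ => ?_⟩
  obtain ⟨r₁, l₁, g1, g2, g3, g4, g5⟩ := Pool.Agent.N41.RM.nf_law hi (ext_norm (S := S) hn)
    (ext_real (S := S) hre) (F := F') hmer heq hγ
  have hr : r₁ = r := by
    rw [hord _ hmre hm1, e1] at g1
    exact_mod_cast g1.symm
  have hl : l₁ = l * (l' / l) := by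
    rw [mul_div_cancel₀ _ e3]
    rw [f2] at g2
    exact_mod_cast g2.symm
  subst hr
  rw [hl, hex] at g4
  rw [hl] at g5
  exact ⟨g4, g5⟩

end bridge

/-- **A numerical form of the parts (iii) and (iv) of Beilinson's conjecture.** Let `X` be a smooth
projective variety of dimension `d` over the number field `K`, `i ≤ 2d` odd, `m = (i + 1) / 2`, and let
`F` be a meromorphic continuation of `L(H^i(X), s)` to a neighbourhood of the segment `[m, m + 1/2]`. Then

* the series `W_γ(T)` converges absolutely for all `T > 1`;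
* `W_γ(T) = r (log log T - Λ_γ) - log |l b| + π i e + O(1 / log T)` for every `γ > π/2`, where `r` is the
  order and `l` the leading coefficient of `F` at `m`, and `e` is the number of the real zeros `> m` minus
  the number of the real poles `> m`;
* for every integer `ρ` (in particular for `ρ = dim V^m`): `ord_{s=m} F = ρ` if and only if
  `Re W_γ(T_n) / log log T_n → ρ` for one `γ > π/2` and one sequence `T_n → ∞`, if and only if
  `W_γ(T) = ρ log log T + O(1)` for all `γ > π/2`;
* for every integer `ρ` and every real `B ≠ 0`: `F` has the order `ρ` and the leading coefficient `B` at `m`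
  if and only if `exp W_γ(T_n) / (log T_n)^ρ → exp (-ρ Λ_γ) / (B b)` for one `γ > π/2` and one sequence
  `T_n → ∞`, if and only if this holds for `T → ∞` and all `γ > π/2`. -/
theorem result (K : Type) [Field K] [NumberField K] (n d i m N : ℕ) (hi : i + 1 = 2 * m)
    (hid : i ≤ 2 * d) (X : Set (MvPolynomial (Fin n) (𝓞 K)))
    (S : Finset (HeightOneSpectrum (𝓞 K))) (α : HeightOneSpectrum (𝓞 K) → Fin N → ℂ)
    (hα : IsParameter X d i S α) (F : ℂ → ℂ) (hF : IsContinuation m α F) :
    (∀ γ T : ℝ, 1 < T → Summable fun x => ‖rotTerm m S α γ T x‖) ∧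
    (∃ (r : ℤ) (l b : ℝ), meromorphicOrderAt F m = r ∧ meromorphicTrailingCoeffAt F m = l ∧ l ≠ 0 ∧
      badFactor m S α = b ∧ b ≠ 0 ∧ ∀ γ : ℝ, Real.pi / 2 < γ →
        (fun T : ℝ => rotSum m S α γ T - (r * (Real.log (Real.log T) - Lam γ) - Real.log |l * b| +
          Real.pi * excess F m * Complex.I)) =O[atTop] (fun T : ℝ => 1 / Real.log T)) ∧
    (∀ ρ : ℤ, List.TFAE [
      meromorphicOrderAt F m = ρ,
      ∃ (γ : ℝ) (T : ℕ → ℝ), Real.pi / 2 < γ ∧ Tendsto T atTop atTop ∧
        Tendsto (fun n => (rotSum m S α γ (T n)).re / Real.log (Real.log (T n))) atTop (𝓝 ρ),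
      ∀ γ : ℝ, Real.pi / 2 < γ →
        ∃ M : ℝ, ∀ᶠ T : ℝ in atTop, ‖rotSum m S α γ T - ρ * Real.log (Real.log T)‖ ≤ M]) ∧
    ∀ (ρ : ℤ) (B : ℝ), B ≠ 0 → List.TFAE [
      meromorphicOrderAt F m = ρ ∧ meromorphicTrailingCoeffAt F m = B,
      ∃ (γ : ℝ) (T : ℕ → ℝ), Real.pi / 2 < γ ∧ Tendsto T atTop atTop ∧
        Tendsto (fun n => Complex.exp (rotSum m S α γ (T n)) / (Real.log (T n) : ℂ) ^ ρ) atTop
          (𝓝 (Complex.exp (-(ρ * Lam γ)) / (B * badFactor m S α))),
      ∀ γ : ℝ, Real.pi / 2 < γ →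
        Tendsto (fun T : ℝ => Complex.exp (rotSum m S α γ T) / (Real.log T : ℂ) ^ ρ) atTop
          (𝓝 (Complex.exp (-(ρ * Lam γ)) / (B * badFactor m S α)))] := by
  obtain ⟨r, l, b, hr, hl, hl0, hb, hb0, hlaw⟩ := law hi hid hα hF
  have hlam : ∀ γ, Pool.Agent.W187.UR.Lam γ = Lam γ := fun γ => rfl
  have hlog := Real.tendsto_log_atTop
  have hO : ∀ γ : ℝ, Real.pi / 2 < γ →
        (fun T : ℝ => rotSum m S α γ T - (r * (Real.log (Real.log T) - Lam γ) - Real.log |l * b| +
          Real.pi * excess F m * Complex.I)) =O[atTop] (fun T : ℝ => 1 / Real.log T) := by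
    intro γ hγ
    have h1 := ((hlaw γ hγ).1).comp_tendsto hlog
    refine h1.congr (fun T => ?_) fun T => rfl
    simp only [Function.comp_apply, sum_eq, hlam]
  have hE : ∀ γ : ℝ, Real.pi / 2 < γ →
      Tendsto (fun T : ℝ => Complex.exp (rotSum m S α γ T) / (Real.log T : ℂ) ^ r) atTop
        (𝓝 (Complex.exp (-(r * Lam γ)) / ((l * b : ℝ) : ℂ))) := by
    intro γ hγ
    have h1 := ((hlaw γ hγ).2).comp hlog
    refine h1.congr fun T => ?_
    simp only [Function.comp_apply, sum_eq]
  have hR : ∀ γ : ℝ, Real.pi / 2 < γ →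
      Tendsto (fun T : ℝ => (rotSum m S α γ T).re / Real.log (Real.log T)) atTop (𝓝 r) := by
    intro γ hγ
    have h1 := (hlaw γ hγ).1
    have h2 := (Pool.Agent.N41.RM.re_of_law (r := r) (Λ := Pool.Agent.W187.UR.Lam γ)
        (c := -(Real.log |l * b| : ℂ) + Real.pi * (excess F m : ℂ) * Complex.I)
        (h1.congr_left fun T => by ring)).comp hlog
    refine h2.congr fun T => ?_
    simp only [Function.comp_apply, sum_eq]
  have hB : ∀ γ : ℝ, Real.pi / 2 < γ →
      ∃ M : ℝ, ∀ᶠ T : ℝ in atTop, ‖rotSum m S α γ T - r * Real.log (Real.log T)‖ ≤ M := by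
    intro γ hγ
    obtain ⟨C, hC⟩ := (hO γ hγ).bound
    refine ⟨C + ‖(-(r * Lam γ) - Real.log |l * b| + Real.pi * excess F m * Complex.I : ℂ)‖, ?_⟩
    filter_upwards [hC, hlog.eventually (eventually_ge_atTop 1)] with T h1 h2
    have h3 : rotSum m S α γ T - r * Real.log (Real.log T) =
        (rotSum m S α γ T - (r * (Real.log (Real.log T) - Lam γ) - Real.log |l * b| +
          Real.pi * excess F m * Complex.I)) +
        (-(r * Lam γ) - Real.log |l * b| + Real.pi * excess F m * Complex.I) := by ring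
    rw [h3]
    refine (norm_add_le _ _).trans (add_le_add ?_ le_rfl)
    have h5 : ‖(1 / Real.log T : ℝ)‖ ≤ 1 := by
      rw [Real.norm_eq_abs, abs_of_pos (by positivity), div_le_one (by linarith)]
      exact h2
    have h6 : 0 ≤ C := by
      by_contra hcon
      push Not at hcon
      have h7 : 0 < ‖(1 / Real.log T : ℝ)‖ := by
        rw [Real.norm_eq_abs, abs_of_pos (by positivity)]
        positivity
      have h8 := norm_nonneg (rotSum m S α γ T - (r * (Real.log (Real.log T) - Lam γ) -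
        Real.log |l * b| + Real.pi * excess F m * Complex.I))
      nlinarith
    calc _ ≤ C * ‖(1 / Real.log T : ℝ)‖ := h1
      _ ≤ C * 1 := by gcongr
      _ = C := mul_one _
  have hpi : Real.pi / 2 < Real.pi := by linarith [Real.pi_pos]
  refine ⟨fun γ T hT => ?_, ⟨r, l, b, hr, hl, hl0, hb, hb0, hO⟩, fun ρ => ?_, fun ρ B hB0 => ?_⟩
  · have E := Pool.Agent.N41.RM.en_nf hi (ext_norm (S := S) (norm_le hα))
      (ext_real (S := S) (psum_real hid hα))
    simp only [term_eq]
    exact E.rterm_summable γ (Real.log_pos hT)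
  · tfae_have 1 → 3 := by
      intro h γ hγ
      have h1 : r = ρ := by
        rw [hr] at h
        exact_mod_cast h
      rw [← h1]
      exact hB γ hγ
    tfae_have 3 → 2 := by
      intro h
      obtain ⟨M, hM⟩ := h Real.pi hpi
      refine ⟨Real.pi, fun n => n, hpi, tendsto_natCast_atTop_atTop, ?_⟩
      have hll : Tendsto (fun T : ℝ => Real.log (Real.log T)) atTop atTop := hlog.comp hlog
      have h1 : Tendsto (fun T : ℝ => (rotSum m S α Real.pi T).re / Real.log (Real.log T)) atTop
          (𝓝 ρ) := by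
        rw [tendsto_iff_norm_sub_tendsto_zero]
        refine squeeze_zero' (g := fun T => M * (Real.log (Real.log T))⁻¹)
          (Eventually.of_forall fun T => norm_nonneg _) ?_ ?_
        · filter_upwards [hM, hll.eventually (eventually_gt_atTop 0)] with T h5 h6
          have h7 : (rotSum m S α Real.pi T).re / Real.log (Real.log T) - ρ =
              (rotSum m S α Real.pi T - ρ * Real.log (Real.log T)).re *
                (Real.log (Real.log T))⁻¹ := by
            have h8 : (rotSum m S α Real.pi T - ρ * Real.log (Real.log T)).re =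
                (rotSum m S α Real.pi T).re - ρ * Real.log (Real.log T) := by
              rw [Complex.sub_re]
              congr 1
              simp
            rw [h8]
            field_simp
          rw [h7, norm_mul, Real.norm_eq_abs, Real.norm_eq_abs, abs_inv, abs_of_pos h6]
          exact mul_le_mul_of_nonneg_right ((Complex.abs_re_le_norm _).trans h5)
            (inv_nonneg.2 h6.le)
        · have := hll.inv_tendsto_atTop.const_mul M
          simpa using this
      exact h1.comp tendsto_natCast_atTop_atTop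
    tfae_have 2 → 1 := by
      rintro ⟨γ, T, hγ, hT, h⟩
      have h1 := tendsto_nhds_unique h ((hR γ hγ).comp hT)
      have h2 : ρ = r := by exact_mod_cast h1
      rw [hr, h2]
    tfae_finish
  · have hBc : (B : ℂ) ≠ 0 := by exact_mod_cast hB0
    tfae_have 1 → 3 := by
      rintro ⟨h1, h2⟩ γ hγ
      rw [hr] at h1
      have h3 : r = ρ := by exact_mod_cast h1
      rw [hl] at h2
      have h4 : l = B := by exact_mod_cast h2
      subst h3
      subst h4
      have := hE γ hγ
      rw [hb]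
      push_cast at this
      exact this
    tfae_have 3 → 2 := fun h => ⟨Real.pi, fun n => n, hpi, tendsto_natCast_atTop_atTop,
      (h Real.pi hpi).comp tendsto_natCast_atTop_atTop⟩
    tfae_have 2 → 1 := by
      rintro ⟨γ, T, hγ, hT, h⟩
      have h1 := Pool.Agent.N41.RM.iff_abs (W := Pool.Agent.N41.RM.rmn
          (Pool.Agent.N41.RM.qv (K := K)) (Pool.Agent.N41.RM.av m
          (Pool.Agent.N41.RM.ext S α)) γ) (Λ := Lam γ) (mul_ne_zero hl0 hb0)
        (by simpa only [hlam] using (hlaw γ hγ).2) ρ (B := B * b) (mul_ne_zero hB0 hb0)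
        (t := fun n => Real.log (T n)) (hlog.comp hT) (by
          rw [hb] at h
          push_cast
          refine h.congr fun n => ?_
          rw [sum_eq])
      obtain ⟨h2, h3⟩ := h1
      refine ⟨by rw [hr, h2], ?_⟩
      rw [hl, mul_right_cancel₀ hb0 h3]
    tfae_finish

end Pool.Agent.Results.MP_29b22a_nt.NumericalCriterion
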