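import Pool.Agent.L0h3.LC.Bei

/-!
# Every truncated numerical form of Beilinson's conjecture on the central leading coefficient implies
# the Riemann hypothesis for `L(H^i(X), s)`, the order of vanishing and the leading coefficient

Let `X` be a smooth projective variety over a number field `K` (for example `K = ℚ`), `i` odd and
`m = (i + 1) / 2`. For a prime `v` of good reduction let `t_{v,k}` be the trace of the `k`-th power of
Frobenius on `H^i(X)`; by Deligne's theorem these traces are determined by the numbers of the points of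
`X` over the finite extensions of the residue field. For a function `w` on `[0, 1]` put

`S_w(T) = ∑_{q_v^k ≤ T} w(log q_v^k / log T) t_{v,k} / (k q_v^{m k})`,

a finite sum over the primes `v` of good reduction and `k ≥ 1`: a truncation of the logarithm of the
Euler product at the central point `s = m`. We suppose that `L(H^i(X), s)` has an entire continuation `F`
(conjectured for odd `i`). Let `b` be the product of the inverse Euler factors at `s = m` over the finite
set of the other primes, `γ` Euler's constant and `c_w = ∫_0^1 (w(y) - w₀) dy / y`.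

* (A) Let `w` be ANY measurable function, bounded on `[0, 1]`, with the limit `w₀ ≠ 0` at `0` and
  `∫_0^1 |w(y) - w₀| dy / y < ∞`. If `S_w(T) + A log log T → κ` for some complex `A`, `κ`, then `F` has no
  zeros with `Re s > m` (the Riemann hypothesis), `A = w₀ r` where `r = ord_{s=m} F`, the leading
  coefficient `l = F^{(r)}(m) / r!` is real with `l b > 0`, and `κ = w₀ (log (l b) - r γ) - r c_w`.
* (B) If `F` has at most exponential growth in `Re s > m`, then the Riemann hypothesis implies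
  `S_w(T) = - w(0) r log log T + w(0) (log (l b) - r γ) - r c_w + O(1 / log T)` for ALL `w` of class `C³`
  on `ℝ` which vanish on `[1, ∞)`.
* (C) Consequently for every `ρ ∈ ℕ` and `B ∈ ℝ` (with `ρ = dim V^m`, and `B` a rational multiple of
  `det Π · det ⟨ , ⟩`: the parts (iii) and (iv) of the conjecture) the following are equivalent: the Riemann
  hypothesis, `ord_{s=m} F = ρ` and `l = B`; the law with `ρ`, `B` for ONE weight; the law with the error
  `O(1 / log T)` for ALL weights of class `C³` vanishing on `[1, ∞)`.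

For `w = 1` and elliptic curves over `ℚ` the implication (A) is a theorem of Goldfeld (1982). The weights
here need not have any regularity, and may vanish on intervals or change sign. So every truncated
numerical form contains the Riemann hypothesis; the forms which do not (file `NumericalCriterion`) use
all primes.

Proof (`Pool/Agent/L0h3/WB`, `Pool/Agent/L0h3/LC`): the Laplace transform of `S_w(e^t)` is the
multiplicative convolution of `w` with the logarithmic derivative of `F(m + z)`; zeros with `Re z > 0`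
would give jumps of it along rays. The constant comes from an Abelian theorem at `z → 0`. For (B) the Riesz
mean of order two is computed by Perron's formula on the line `Re z = 1 / log T`. The facts on the Frobenius
eigenvalues are from the starting library (`Pool.Agent.N41.RM`); the definitions for `X` are those of
the file `NumericalCriterion` of helper86.
-/

set_option autoImplicit false

namespace Pool.Agent.Results.MP_29b22a_nt.TruncatedForms

open NumberField IsDedekindDomain Filter Topology MeasureTheory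

section defs

variable {K : Type} [Field K] [NumberField K] {n : ℕ}

/-- `X` is a projective scheme over the ring of integers of `K`, given by homogeneous polynomials. For a
homomorphism from the ring of integers to a field `κ` with `q` elements this is the number of the
nonzero solutions of the equations in `κ ^ n`, that is `q - 1` times the number of the points of `X` with
coordinates in `κ`. -/
noncomputable def cone (X : Set (MvPolynomial (Fin n) (𝓞 K))) {κ : Type} [Field κ]
    (φ : 𝓞 K →+* κ) : ℕ :=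
  Nat.card {u : Fin n → κ // u ≠ 0 ∧ ∀ f ∈ X, MvPolynomial.eval₂ φ u f = 0}

/-- The norm of the prime `v`. -/
noncomputable def q (v : HeightOneSpectrum (𝓞 K)) : ℕ := Ideal.absNorm v.asIdeal

/-- `α_1, …, α_N` are the eigenvalues of the geometric Frobenius at the prime `v` on `H^i(X)`, where `X`
has dimension `d`: there are finite multisets `β_k` of complex numbers of absolute value `q_v^{k/2}`,
`k = 0, …, 2d`, with `β_i = {α_1, …, α_N}`, such that for every finite extension `κ` of the residue field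
of `v`, of degree `e`, the number of the points of `X` with coordinates in `κ` is
`∑_k (-1)^k ∑_{z ∈ β_k} z^e`. (By Deligne's theorem they exist at all primes of good reduction, and they
are determined by the numbers of points.) -/
def IsFrobenius (X : Set (MvPolynomial (Fin n) (𝓞 K))) (d i : ℕ)
    (v : HeightOneSpectrum (𝓞 K)) {N : ℕ} (α : Fin N → ℂ) : Prop :=
  ∃ β : ℕ → Multiset ℂ, β i = Finset.univ.val.map α ∧
    (∀ k, ∀ z ∈ β k, ‖z‖ = (q v : ℝ) ^ ((k : ℝ) / 2)) ∧
    ∀ (κ : Type) [Field κ] [Finite κ] (φ : 𝓞 K →+* κ) (e : ℕ), RingHom.ker φ = v.asIdeal →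
      Nat.card κ = q v ^ e →
      (cone X φ : ℂ) = ((q v : ℂ) ^ e - 1) *
          ∑ k ∈ Finset.range (2 * d + 1), (-1 : ℂ) ^ k * ((β k).map (fun z => z ^ e)).sum

/-- The `α_{v,j}` are the parameters of the Euler factors of `L(H^i(X), s)`: outside the finite set `S` of
primes they are the eigenvalues of Frobenius on `H^i(X)`. For the primes in `S` they are the zeros of
any real polynomial, of absolute value at most `q_v^{i/2}` (the eigenvalues of Frobenius on the
invariants of the inertia group, completed by zeros; all of them may be zero, this is the L-function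
without the Euler factors in `S`). -/
def IsParameter (X : Set (MvPolynomial (Fin n) (𝓞 K))) (d i : ℕ) {N : ℕ}
    (S : Finset (HeightOneSpectrum (𝓞 K))) (α : HeightOneSpectrum (𝓞 K) → Fin N → ℂ) : Prop :=
  (∀ v ∉ S, IsFrobenius X d i v (α v)) ∧ ∀ v ∈ S, (∀ j, ‖α v j‖ ≤ (q v : ℝ) ^ ((i : ℝ) / 2)) ∧
    ∃ P : Polynomial ℝ, P.map (algebraMap ℝ ℂ) = ∏ j, (Polynomial.X - Polynomial.C (α v j))

/-- `L(s) = ∏_v ∏_j (1 - α_{v,j} q_v^{-s})⁻¹`. -/
noncomputable def LFun {N : ℕ} (α : HeightOneSpectrum (𝓞 K) → Fin N → ℂ) (s : ℂ) : ℂ :=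
  ∏' v : HeightOneSpectrum (𝓞 K), ∏ j, (1 - α v j * (q v : ℂ) ^ (-s))⁻¹

/-- `F` is entire and equal to the L-function for `Re s > m + 1/2`. -/
def IsEntireContinuation (m : ℕ) {N : ℕ} (α : HeightOneSpectrum (𝓞 K) → Fin N → ℂ)
    (F : ℂ → ℂ) : Prop :=
  Differentiable ℂ F ∧ ∀ s : ℂ, (m : ℝ) + 1 / 2 < s.re → F s = LFun α s

open Classical in
/-- `S_w(T) = ∑ w(log q_v^k / log T) (∑_j α_{v,j}^k) / (k q_v^{m k})`, the sum over the `v ∉ S` and `k ≥ 1`
with `q_v^k ≤ T`; `v = x.1` and `k = x.2 + 1`. Only finitely many terms are not zero. -/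
noncomputable def truncSum (m : ℕ) {N : ℕ} (S : Finset (HeightOneSpectrum (𝓞 K)))
    (α : HeightOneSpectrum (𝓞 K) → Fin N → ℂ) (w : ℝ → ℂ) (T : ℝ) : ℂ :=
  ∑' x : HeightOneSpectrum (𝓞 K) × ℕ, if x.1 ∈ S then 0 else
    if ((q x.1 ^ (x.2 + 1) : ℕ) : ℝ) ≤ T then
      (∑ j, α x.1 j ^ (x.2 + 1)) / ((x.2 + 1) * ((q x.1 : ℂ) ^ m) ^ (x.2 + 1)) *
        w (Real.log ((q x.1 ^ (x.2 + 1) : ℕ) : ℝ) / Real.log T) else 0

/-- `b`: the product of the inverse Euler factors at `s = m` over the primes in `S`. -/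
noncomputable def badFactor (m : ℕ) {N : ℕ} (S : Finset (HeightOneSpectrum (𝓞 K)))
    (α : HeightOneSpectrum (𝓞 K) → Fin N → ℂ) : ℂ :=
  ∏ v ∈ S, ∏ j, (1 - α v j / (q v : ℂ) ^ m)

end defs

/-- The Riemann hypothesis for `F` in the half-plane `Re s > m`. -/
def RH (m : ℕ) (F : ℂ → ℂ) : Prop := ∀ s : ℂ, (m : ℝ) < s.re → F s ≠ 0

/-- At most exponential growth in `Re s > m`. -/
def ExpGrowth (m : ℕ) (F : ℂ → ℂ) : Prop :=
  ∃ C : ℝ, ∀ s : ℂ, (m : ℝ) < s.re → ‖F s‖ ≤ Real.exp (C * (1 + ‖s‖))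

/-- The leading term of `F` at `s = m` is `l (s - m)^r`. -/
def LeadingTerm (m : ℕ) (F : ℂ → ℂ) (r : ℕ) (l : ℝ) : Prop :=
  analyticOrderAt F m = r ∧ iteratedDeriv r F m / (r.factorial : ℂ) = l

/-- A weight with the value `w₀ ≠ 0` at zero: a measurable function, bounded on `[0, 1]`, with the
limit `w₀` at `0+` and `∫_0^1 |w(y) - w₀| dy / y < ∞`. -/
def Weight (w : ℝ → ℂ) (w₀ : ℂ) : Prop :=
  Measurable w ∧ (∃ B : ℝ, ∀ y ∈ Set.Icc (0 : ℝ) 1, ‖w y‖ ≤ B) ∧ w₀ ≠ 0 ∧
    Tendsto w (𝓝[>] 0) (𝓝 w₀) ∧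
    IntegrableOn (fun y : ℝ => (w y - w₀) / (y : ℂ)) (Set.Ioo (0 : ℝ) 1)

/-- `c_w = ∫_0^1 (w(y) - w₀) dy / y`. -/
noncomputable def cst (w : ℝ → ℂ) (w₀ : ℂ) : ℂ := ∫ y in Set.Ioo (0 : ℝ) 1, (w y - w₀) / (y : ℂ)

/-- The constant `w₀ (log B - r γ) - r c_w`. -/
noncomputable def limitConst (w : ℝ → ℂ) (w₀ : ℂ) (r : ℕ) (B : ℝ) : ℂ :=
  w₀ * (Real.log B - r * Real.eulerMascheroniConstant) - r * cst w w₀

section bridge

variable {K : Type} [Field K] [NumberField K] {n d i m N : ℕ} {X : Set (MvPolynomial (Fin n) (𝓞 K))}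
  {S : Finset (HeightOneSpectrum (𝓞 K))} {α : HeightOneSpectrum (𝓞 K) → Fin N → ℂ} {F : ℂ → ℂ}

theorem norm_le (hα : IsParameter X d i S α) (v : HeightOneSpectrum (𝓞 K)) (j : Fin N) :
    ‖α v j‖ ≤ (Ideal.absNorm v.asIdeal : ℝ) ^ ((i : ℝ) / 2) := by
  by_cases hv : v ∈ S
  · exact (hα.2 v hv).1 j
  · exact (Pool.Agent.N41.RM.frob_norm (X := X) (d := d) (hα.1 v hv) j).le

theorem psum_real (hid : i ≤ 2 * d) (hα : IsParameter X d i S α) (v : HeightOneSpectrum (𝓞 K))
    (k : ℕ) : (∑ j, α v j ^ (k + 1)).im = 0 := by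
  refine Pool.Agent.N41.RM.psum_real_of_stable ?_ (k + 1)
  by_cases hv : v ∈ S
  · exact Pool.Agent.N41.RM.conj_stable (hα.2 v hv).2
  · exact Pool.Agent.N41.RM.frob_conj (X := X) (d := d) hid (hα.1 v hv)

theorem bad_eq (m : ℕ) : Pool.Agent.N41.RM.bad S α (m : ℂ) = badFactor m S α := by
  unfold Pool.Agent.N41.RM.bad badFactor q
  refine Finset.prod_congr rfl fun v _ => Finset.prod_congr rfl fun j _ => ?_
  rw [Complex.cpow_neg, Complex.cpow_natCast, div_eq_mul_inv]

theorem sum_eq (w : ℝ → ℂ) (T : ℝ) : truncSum m S α w T = L0h3.LC.wB m S α w T := by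
  unfold truncSum L0h3.LC.wB q
  refine tsum_congr fun x => ?_
  split_ifs <;> rfl

/-- the leading terms of `F` and of the function of the good primes -/
theorem leading (hi : i + 1 = 2 * m) (hα : IsParameter X d i S α) (hFd : Differentiable ℂ F)
    {b' : ℝ} {r : ℕ}
    (h1 : L0h3.LC.LT0 (fun u => F (m + u) * Pool.Agent.N41.RM.bad S α (m + u)) 0 r b') :
    ∃ l b : ℝ, badFactor m S α = b ∧ LeadingTerm m F r l ∧ l * b = b' := by
  have h3 : ((i : ℝ)) + 1 = 2 * m := by exact_mod_cast hi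
  obtain ⟨b, hb⟩ := L0h3.LC.bad_real (S := S) (fun v hv => (hα.2 v hv).2) m
  have hmre : (i : ℝ) / 2 < (m : ℂ).re := by rw [Complex.natCast_re]; linarith
  have hb0 : Pool.Agent.N41.RM.bad S α (m : ℂ) ≠ 0 := Pool.Agent.N41.RM.bad_ne (norm_le hα) hmre
  have hbr : (b : ℂ) ≠ 0 := by rwa [← hb]
  have hbr' : b ≠ 0 := by exact_mod_cast hbr
  -- the order of `F` is finite
  have hfin : analyticOrderAt F m ≠ ⊤ := by
    intro htop
    rw [analyticOrderAt_eq_top] at htop
    have h4 : AnalyticOnNhd ℂ F Set.univ := hFd.differentiableOn.analyticOnNhd isOpen_univ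
    have h5 := h4.eqOn_zero_of_preconnected_of_eventuallyEq_zero isPreconnected_univ
      (Set.mem_univ (m : ℂ)) htop
    have h6 : (fun u => F (m + u) * Pool.Agent.N41.RM.bad S α (m + u)) = fun _ => 0 := by
      funext u
      rw [h5 (Set.mem_univ _)]
      simp
    rw [h6] at h1
    have h7 := h1.1
    have h8 : analyticOrderAt (fun _ : ℂ => (0 : ℂ)) 0 = ⊤ := by
      rw [analyticOrderAt_eq_top]
      exact Eventually.of_forall fun _ => rfl
    rw [h8] at h7
    exact ENat.top_ne_natCast r h7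
  obtain ⟨s, hs⟩ : ∃ s : ℕ, analyticOrderAt F m = s := ⟨_, (ENat.natCast_toNat hfin).symm⟩
  set l : ℂ := iteratedDeriv s F m / (s.factorial : ℂ) with hl
  have h2 : L0h3.LC.LT0 F m s l := ⟨hs, rfl⟩
  have h4 := L0h3.LC.lt0_shift hFd (L0h3.LC.bad_diff (S := S) (α := α)) hb0 h2
  obtain ⟨rfl, h5⟩ := L0h3.LC.lt0_unique h4 h1
  rw [hb] at h5
  have h6 : l = ((b' / b : ℝ) : ℂ) := by
    push_cast
    rw [eq_div_iff hbr]
    exact h5
  refine ⟨b' / b, b, by rw [← bad_eq, hb], ⟨hs, by rw [← h6]⟩, div_mul_cancel₀ _ hbr'⟩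

theorem leading' (hi : i + 1 = 2 * m) (hα : IsParameter X d i S α) (hFd : Differentiable ℂ F)
    {l b : ℝ} {r : ℕ} (hb : badFactor m S α = b) (h : LeadingTerm m F r l) :
    L0h3.LC.LT0 (fun u => F (m + u) * Pool.Agent.N41.RM.bad S α (m + u)) 0 r ((l * b : ℝ) : ℂ) := by
  have h3 : ((i : ℝ)) + 1 = 2 * m := by exact_mod_cast hi
  have hmre : (i : ℝ) / 2 < (m : ℂ).re := by rw [Complex.natCast_re]; linarith
  have hb0 : Pool.Agent.N41.RM.bad S α (m : ℂ) ≠ 0 := Pool.Agent.N41.RM.bad_ne (norm_le hα) hmre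
  have h4 := L0h3.LC.lt0_shift hFd (L0h3.LC.bad_diff (S := S) (α := α)) hb0
    (show L0h3.LC.LT0 F m r l from ⟨h.1, h.2⟩)
  rw [bad_eq, hb] at h4
  push_cast
  exact h4

theorem data (hi : i + 1 = 2 * m) (hid : i ≤ 2 * d) (hα : IsParameter X d i S α)
    (hF : IsEntireContinuation m α F) :
    L0h3.LC.GDat (L0h3.LC.cn (fun v : HeightOneSpectrum (𝓞 K) => Ideal.absNorm v.asIdeal)
      (Pool.Agent.N41.RM.av m (Pool.Agent.N41.RM.ext S α)))
      (max 3 ((Module.finrank ℚ K * N) ^ 2))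
      (fun u => F (m + u) * Pool.Agent.N41.RM.bad S α (m + u)) :=
  L0h3.LC.gdat_nf hi (norm_le hα) (psum_real hid hα) S hF.1 hF.2

theorem rh_of (h : ∀ z : ℂ, 0 < z.re → F (m + z) * Pool.Agent.N41.RM.bad S α (m + z) ≠ 0) :
    RH m F := by
  intro s hs h0
  refine h (s - m) (by rw [Complex.sub_re, Complex.natCast_re]; linarith) ?_
  rw [add_sub_cancel, h0, zero_mul]

theorem of_rh (hi : i + 1 = 2 * m) (hα : IsParameter X d i S α) (h : RH m F) :
    ∀ z : ℂ, 0 < z.re → F (m + z) * Pool.Agent.N41.RM.bad S α (m + z) ≠ 0 := by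
  intro z hz
  have h3 : ((i : ℝ)) + 1 = 2 * m := by exact_mod_cast hi
  refine mul_ne_zero (h _ (by rw [Complex.add_re, Complex.natCast_re]; linarith)) ?_
  refine Pool.Agent.N41.RM.bad_ne (norm_le hα) ?_
  rw [Complex.add_re, Complex.natCast_re]
  linarith

theorem any_weight (hi : i + 1 = 2 * m) (hid : i ≤ 2 * d) (hα : IsParameter X d i S α)
    (hF : IsEntireContinuation m α F) {w : ℝ → ℂ} {w₀ A κ : ℂ} (hw : Weight w w₀)
    (h : Tendsto (fun T : ℝ => truncSum m S α w T + A * (Real.log (Real.log T) : ℂ)) atTop (𝓝 κ)) :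
    RH m F ∧ ∃ (r : ℕ) (l b : ℝ), badFactor m S α = b ∧ LeadingTerm m F r l ∧ 0 < l * b ∧
      A = w₀ * r ∧ κ = limitConst w w₀ r (l * b) := by
  obtain ⟨hwm, ⟨B, hB⟩, hw0, ht, hd⟩ := hw
  have h0 := h.congr' (f₂ := fun T : ℝ => L0h3.LC.wG (L0h3.LC.cn
      (fun v : HeightOneSpectrum (𝓞 K) => Ideal.absNorm v.asIdeal)
      (Pool.Agent.N41.RM.av m (Pool.Agent.N41.RM.ext S α))) w T + A * (Real.log (Real.log T) : ℂ)) (by
    filter_upwards [eventually_ge_atTop (0 : ℝ)] with T hT
    rw [sum_eq, L0h3.LC.wB_eq hi (norm_le hα) (psum_real hid hα) S w hT])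
  obtain ⟨h1, r, b', h2, h3, h4, h5, h6⟩ := (data hi hid hα hF).fwd hwm hB hw0 ht hd h0
  obtain ⟨l, b, h7, h8, h9⟩ := leading hi hα hF.1 ⟨h2, h4⟩
  refine ⟨rh_of h1, r, l, b, h7, h8, by rw [h9]; exact h3, h5, ?_⟩
  rw [h9]
  exact h6

theorem smooth (hi : i + 1 = 2 * m) (hid : i ≤ 2 * d) (hα : IsParameter X d i S α)
    (hF : IsEntireContinuation m α F) (hgrow : ExpGrowth m F) (hRH : RH m F) :
    ∃ (r : ℕ) (l b : ℝ), badFactor m S α = b ∧ LeadingTerm m F r l ∧ 0 < l * b ∧
      ∀ w : ℝ → ℂ, ContDiff ℝ 3 w → (∀ y : ℝ, 1 ≤ y → w y = 0) →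
        ∃ M : ℝ, ∀ᶠ T : ℝ in atTop, ‖truncSum m S α w T + w 0 * r * (Real.log (Real.log T) : ℂ) -
          limitConst w (w 0) r (l * b)‖ ≤ M / Real.log T := by
  obtain ⟨r, b', h2, h3, h4, h5⟩ := (data hi hid hα hF).bwd
    (L0h3.LC.phiExp_nf hi (norm_le hα) hgrow) (of_rh hi hα hRH)
  obtain ⟨l, b, h7, h8, h9⟩ := leading hi hα hF.1 ⟨h2, h4⟩
  refine ⟨r, l, b, h7, h8, by rw [h9]; exact h3, fun w hw hw1 => ?_⟩
  obtain ⟨M, hM⟩ := h5 w hw hw1
  refine ⟨M, ?_⟩
  filter_upwards [hM, eventually_ge_atTop (0 : ℝ)] with T h10 hT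
  rw [sum_eq, L0h3.LC.wB_eq hi (norm_le hα) (psum_real hid hα) S w hT, h9]
  exact h10

/-- a smooth cut-off -/
noncomputable def cut (y : ℝ) : ℝ := Real.smoothTransition (1 - y)

theorem cut_smooth : ContDiff ℝ 3 fun y => (cut y : ℂ) := by
  have h1 : ContDiff ℝ 3 cut := by
    unfold cut
    exact Real.smoothTransition.contDiff.comp (contDiff_const.sub contDiff_id)
  exact Complex.ofRealCLM.contDiff.comp h1

theorem cut_one {y : ℝ} (hy : 1 ≤ y) : (cut y : ℂ) = 0 := by
  unfold cut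
  rw [Real.smoothTransition.zero_of_nonpos (by linarith), Complex.ofReal_zero]

theorem cut_zero : cut 0 = 1 := by
  unfold cut
  rw [sub_zero, Real.smoothTransition.one]

theorem cut_weight : Weight (fun y => (cut y : ℂ)) 1 := by
  refine ⟨cut_smooth.continuous.measurable, ⟨1, fun y _ => ?_⟩, one_ne_zero, ?_, ?_⟩
  · unfold cut
    rw [Complex.norm_real, Real.norm_eq_abs, abs_of_nonneg (Real.smoothTransition.nonneg _)]
    exact Real.smoothTransition.le_one _
  · have h2 := cut_smooth.continuous.tendsto 0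
    rw [cut_zero, Complex.ofReal_one] at h2
    exact tendsto_nhdsWithin_of_tendsto_nhds h2
  · have h1 := L0h3.LC.dini_c1 (cut_smooth.of_le (by norm_num))
    rw [cut_zero, Complex.ofReal_one] at h1
    exact h1

end bridge

/-- **Truncated numerical forms of Beilinson's conjecture.** Let `X` be a smooth projective variety of
dimension `d` over the number field `K`, `i ≤ 2d` odd, `m = (i + 1) / 2`, and let `F` be the entire
continuation of `L(H^i(X), s)`. -/
theorem result (K : Type) [Field K] [NumberField K] (n d i m N : ℕ) (hi : i + 1 = 2 * m)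
    (hid : i ≤ 2 * d) (X : Set (MvPolynomial (Fin n) (𝓞 K)))
    (S : Finset (HeightOneSpectrum (𝓞 K))) (α : HeightOneSpectrum (𝓞 K) → Fin N → ℂ)
    (hα : IsParameter X d i S α) (F : ℂ → ℂ) (hF : IsEntireContinuation m α F) :
    (∀ (w : ℝ → ℂ) (w₀ A κ : ℂ), Weight w w₀ →
      Tendsto (fun T : ℝ => truncSum m S α w T + A * (Real.log (Real.log T) : ℂ)) atTop (𝓝 κ) →
      RH m F ∧ ∃ (r : ℕ) (l b : ℝ), badFactor m S α = b ∧ LeadingTerm m F r l ∧ 0 < l * b ∧
        A = w₀ * r ∧ κ = limitConst w w₀ r (l * b)) ∧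
    (ExpGrowth m F → RH m F → ∃ (r : ℕ) (l b : ℝ), badFactor m S α = b ∧ LeadingTerm m F r l ∧
      0 < l * b ∧ ∀ w : ℝ → ℂ, ContDiff ℝ 3 w → (∀ y : ℝ, 1 ≤ y → w y = 0) →
        ∃ M : ℝ, ∀ᶠ T : ℝ in atTop, ‖truncSum m S α w T + w 0 * r * (Real.log (Real.log T) : ℂ) -
          limitConst w (w 0) r (l * b)‖ ≤ M / Real.log T) ∧
    (ExpGrowth m F → ∀ (ρ : ℕ) (B b : ℝ), badFactor m S α = b → List.TFAE [
      RH m F ∧ LeadingTerm m F ρ B,
      0 < B * b ∧ ∃ (w : ℝ → ℂ) (w₀ : ℂ), Weight w w₀ ∧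
        Tendsto (fun T : ℝ => truncSum m S α w T + w₀ * ρ * (Real.log (Real.log T) : ℂ)) atTop
          (𝓝 (limitConst w w₀ ρ (B * b))),
      0 < B * b ∧ ∀ w : ℝ → ℂ, ContDiff ℝ 3 w → (∀ y : ℝ, 1 ≤ y → w y = 0) →
        ∃ M : ℝ, ∀ᶠ T : ℝ in atTop, ‖truncSum m S α w T + w 0 * ρ * (Real.log (Real.log T) : ℂ) -
          limitConst w (w 0) ρ (B * b)‖ ≤ M / Real.log T]) := by
  refine ⟨fun w w₀ A κ hw h => any_weight hi hid hα hF hw h,
    fun hgrow hRH => smooth hi hid hα hF hgrow hRH, fun hgrow ρ B b hb => ?_⟩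
  tfae_have 1 → 3 := by
    rintro ⟨hRH, hlt⟩
    obtain ⟨r, l, b', h1, h2, h3, h4⟩ := smooth hi hid hα hF hgrow hRH
    have hbb : b' = b := by
      have := h1.symm.trans hb
      exact_mod_cast this
    subst hbb
    obtain ⟨rfl, h5⟩ := L0h3.LC.lt0_unique (show L0h3.LC.LT0 F m r l from ⟨h2.1, h2.2⟩)
      (show L0h3.LC.LT0 F m ρ B from ⟨hlt.1, hlt.2⟩)
    have h6 : l = B := by exact_mod_cast h5
    rw [← h6]
    exact ⟨h3, h4⟩
  tfae_have 3 → 2 := by
    rintro ⟨hpos, h⟩
    refine ⟨hpos, fun y => (cut y : ℂ), 1, cut_weight, ?_⟩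
    obtain ⟨M, hM⟩ := h _ cut_smooth fun y hy => cut_one hy
    rw [tendsto_iff_norm_sub_tendsto_zero]
    refine squeeze_zero' (g := fun X => M / Real.log X) (Eventually.of_forall fun X => norm_nonneg _)
      ?_ (Tendsto.const_div_atTop Real.tendsto_log_atTop M)
    filter_upwards [hM] with T hT
    rwa [cut_zero, Complex.ofReal_one] at hT
  tfae_have 2 → 1 := by
    rintro ⟨hpos, w, w₀, hw, h⟩
    obtain ⟨h1, r, l, b', h2, h3, h4, h5, h6⟩ := any_weight hi hid hα hF hw h
    have hbb : b' = b := by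
      have := h2.symm.trans hb
      exact_mod_cast this
    subst hbb
    have hw0 : w₀ ≠ 0 := hw.2.2.1
    have hn : ρ = r := by
      have := mul_left_cancel₀ hw0 h5
      exact_mod_cast this
    subst hn
    refine ⟨h1, ?_⟩
    have h7 : Real.log (B * b') = Real.log (l * b') := by
      unfold limitConst at h6
      have h8 := mul_left_cancel₀ hw0 (sub_left_injective h6)
      have h9 := sub_left_injective h8
      exact_mod_cast h9
    have h8 : B * b' = l * b' := Real.log_injOn_pos hpos h4 h7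
    have hb0 : b' ≠ 0 := by
      rintro rfl
      simp at hpos
    rw [mul_right_cancel₀ hb0 h8]
    exact h3
  tfae_finish

end Pool.Agent.Results.MP_29b22a_nt.TruncatedForms
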